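import Pool.Agent.H80.HS.Targets

namespace Pool.Agent.H67.HS.B1
open MeasureTheory Set Pool.Agent.H80.HS
open scoped ContDiff ENNReal

private theorem compact_case (K L C : Set ℝ) (hK : IsCompact K) (hL : IsCompact L)
    (hKn : K.Nonempty) (hLn : L.Nonempty) (h : ∀ a ∈ K, ∀ b ∈ L, a + b ∈ C) :
    volume K + volume L ≤ volume C := by
  obtain ⟨a, haK, ha⟩ : ∃ a ∈ K, ∀ x ∈ K, x ≤ a :=
    ⟨sSup K, hK.sSup_mem hKn, fun x hx => le_csSup hK.bddAbove hx⟩
  obtain ⟨b, hbL, hb⟩ : ∃ b ∈ L, ∀ x ∈ L, b ≤ x :=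
    ⟨sInf L, hL.sInf_mem hLn, fun x hx => csInf_le hL.bddBelow hx⟩
  have h1 : volume ((fun x => x + (-b)) ⁻¹' K) = volume K := measure_preimage_add_right _ _ _
  have h2 : volume ((fun x => x + (-a)) ⁻¹' L) = volume L := measure_preimage_add_right _ _ _
  have hd : AEDisjoint volume ((fun x => x + (-b)) ⁻¹' K) ((fun x => x + (-a)) ⁻¹' L) := by
    unfold AEDisjoint
    refine measure_mono_null (t := {a + b}) ?_ (measure_singleton _)
    rintro x ⟨hx1, hx2⟩
    have h3 := ha _ hx1
    have h4 := hb _ hx2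
    simp only [mem_singleton_iff]
    linarith
  have hm : NullMeasurableSet ((fun x => x + (-a)) ⁻¹' L) volume :=
    ((measurable_add_const (-a)) hL.measurableSet).nullMeasurableSet
  rw [← h1, ← h2, ← measure_union₀ hm hd]
  refine measure_mono ?_
  rintro x (hx | hx)
  · have := h _ hx b hbL
    simpa using this
  · have := h a haK _ hx
    have e : a + (x + -a) = x := by ring
    rwa [e] at this

private theorem zero_case (B C : Set ℝ) (a : ℝ) (h : ∀ b ∈ B, a + b ∈ C) :
    volume B ≤ volume C := by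
  have h1 : volume ((fun x => x + (-a)) ⁻¹' B) = volume B := measure_preimage_add_right _ _ _
  rw [← h1]
  refine measure_mono fun x hx => ?_
  have := h _ hx
  have e : a + (x + -a) = x := by ring
  rwa [e] at this

theorem b1 : T_B1 := by
  intro A B C hA hB hAm hBm h
  by_cases h1 : volume A = 0
  · rw [h1, zero_add]
    obtain ⟨a, ha⟩ := hA
    exact zero_case B C a (h a ha)
  by_cases h2 : volume B = 0
  · rw [h2, add_zero]
    obtain ⟨b, hb⟩ := hB
    exact zero_case A C b fun a ha => by rw [add_comm]; exact h a ha b hb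
  by_contra hlt
  rw [not_le] at hlt
  obtain ⟨y, hy, z, hz, hyz⟩ := ENNReal.exists_lt_add_of_lt_add hlt h1 h2
  obtain ⟨K, hKA, hK, hyK⟩ := hAm.exists_lt_isCompact hy
  obtain ⟨L, hLB, hL, hzL⟩ := hBm.exists_lt_isCompact hz
  have hKn : K.Nonempty := nonempty_of_measure_ne_zero (lt_of_le_of_lt zero_le hyK).ne'
  have hLn : L.Nonempty := nonempty_of_measure_ne_zero (lt_of_le_of_lt zero_le hzL).ne'
  have h3 := compact_case K L C hK hL hKn hLn fun a ha b hb => h a (hKA ha) b (hLB hb)
  exact absurd (hyz.trans (ENNReal.add_lt_add hyK hzL)) (not_lt.2 h3)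

end Pool.Agent.H67.HS.B1
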