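import Pool.Agent.H80.HS.Targets

namespace Pool.Agent.H67.HS.B4
open MeasureTheory Set Pool.Agent.H80.HS
open scoped ContDiff ENNReal

private theorem vol_eq (n : ℕ) (A : Set (V n)) (hA : MeasurableSet A) :
    volume A = ∫⁻ x : Fin n → ℝ, A.indicator (fun _ => (1 : ℝ≥0∞)) (WithLp.toLp 2 x) := by
  have h := (PiLp.volume_preserving_toLp (Fin n)).lintegral_comp
    (f := A.indicator (fun _ => (1 : ℝ≥0∞))) (measurable_const.indicator hA)
  rw [h, lintegral_indicator_const hA, one_mul]

theorem b4 (hB3 : T_B3) : T_B4 := by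
  intro n l hl0 hl1 A B C hA hB hC h
  have hm : ∀ S : Set (V n), MeasurableSet S → Measurable
      (fun x : Fin n → ℝ => S.indicator (fun _ => (1 : ℝ≥0∞)) (WithLp.toLp 2 x)) := fun S hS =>
    (measurable_const.indicator hS).comp (PiLp.volume_preserving_toLp (Fin n)).measurable
  rw [vol_eq n A hA.measurableSet, vol_eq n B hB.measurableSet, vol_eq n C hC.measurableSet]
  refine hB3 n l hl0 hl1 _ _ _ (hm A hA.measurableSet) (hm B hB.measurableSet)
    (hm C hC.measurableSet) fun x y => ?_
  by_cases hx : WithLp.toLp 2 x ∈ A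
  · by_cases hy : WithLp.toLp 2 y ∈ B
    · have hz : WithLp.toLp 2 ((1 - l) • x + l • y) ∈ C := h _ hx _ hy
      rw [indicator_of_mem hx, indicator_of_mem hy, indicator_of_mem hz, ENNReal.one_rpow,
        ENNReal.one_rpow, one_mul]
    · rw [indicator_of_notMem hy, ENNReal.zero_rpow_of_pos hl0, mul_zero]
      exact zero_le
  · rw [indicator_of_notMem hx, ENNReal.zero_rpow_of_pos (by linarith), zero_mul]
    exact zero_le

end Pool.Agent.H67.HS.B4
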