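import Pool.Agent.H80.HS.Targets

namespace Pool.Agent.H67.HS.S1
open MeasureTheory Set Pool.Agent.H80.HS
open scoped ContDiff ENNReal

theorem s1 : T_S1 := by
  intro n f hf
  have hg : Measurable (fun z : V n × (V n × ℝ) => f (z.1, z.2.1, z.2.2 + 2 * inner ℝ z.1 z.2.1)) := by
    refine hf.comp ?_
    fun_prop
  have h1 : ∀ x : V n, ∫⁻ q : V n × ℝ, f (x, q) =
      ∫⁻ q : V n × ℝ, f (x, q.1, q.2 + 2 * inner ℝ x q.1) := by
    intro x
    have hfx : Measurable (fun q : V n × ℝ => f (x, q)) := hf.comp (by fun_prop)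
    have hgx : Measurable (fun q : V n × ℝ => f (x, q.1, q.2 + 2 * inner ℝ x q.1)) :=
      hf.comp (by fun_prop)
    rw [Measure.volume_eq_prod, lintegral_prod _ hfx.aemeasurable,
      lintegral_prod _ hgx.aemeasurable]
    refine lintegral_congr fun y => ?_
    exact (lintegral_add_right_eq_self (fun t => f (x, y, t)) (2 * inner ℝ x y)).symm
  calc ∫⁻ p, f p = ∫⁻ x : V n, ∫⁻ q : V n × ℝ, f (x, q) := by
        rw [Measure.volume_eq_prod, lintegral_prod _ hf.aemeasurable]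
    _ = ∫⁻ x : V n, ∫⁻ q : V n × ℝ, f (x, q.1, q.2 + 2 * inner ℝ x q.1) :=
        lintegral_congr h1
    _ = ∫⁻ q : V n × ℝ, ∫⁻ x : V n, f (x, q.1, q.2 + 2 * inner ℝ x q.1) :=
        lintegral_lintegral_swap hg.aemeasurable

end Pool.Agent.H67.HS.S1
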